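import Mathlib
import Pool.Agent.P8H51.EA.FinalT
import Pool.Agent.P8H51.EA.Bmg

/-!
# The abc inequality over `ℤ[(1 + √5) / 2]` with exponent one and an explicit constant for few digits to the base golden ratio

Let `K = ℚ(√5)`, `u` the golden ratio (or its conjugate), so that the units of the ring of integers of `K` are the numbers
`± u ^ a`, `a ∈ ℤ`. Consider the triples `A_0 + A_1 + A_2 = 0` in lowest terms of nonzero integers of `K` of the form

  `A_σ = w_σ ∏_{i ∈ I_σ} x_i ^ (e_i)`, `σ = 0, 1, 2`,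

where each of the `p` integers `x_i ≠ 0` of `K` is a sum of `k` terms `c u ^ a`, `a ∈ ℤ`, `c` an integer of `K` with
`|c|, |c̄| ≤ M`, each `w_σ` is one such term, and `∑_{i ∈ I_σ} e_i < D`. Then

  `H (A_0, A_1, A_2) ≤ exp ((192 D r (1 + log M)) ^ (2 r ^ 3)) |N (x_1 ⋯ x_p)|`, `r = p k + 3`.

There are no exceptions and no restrictions on the exponents `a`. For instance the `x_i` may be sums of `k / 2` Lucas numbers
`L_a = u ^ a + (- 1 / u) ^ a` with bounded coefficients.

Proof. After a shift all exponents are at least zero. We pass to the base `θ = u ^ 6`, and choose a scale `L` such that the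
exponents of the digits can be split into `a = m + l`, where `m` is small, the numbers `l` have large gaps compared with the
`m`, and the relation `∑ A_σ = 0` is the value at `T = θ` of an identity between the polynomials with `θ ^ (m + l)` replaced by
`θ ^ m T ^ l`: a vanishing sum of terms `c θ ^ a` splits at large gaps of the exponents, because the lower part is small at one
of the two real places and, being minus the upper part, also at the other one (package CUT). The gaps imply that the zeros
of the polynomials different from `0` are near the unit circle (ROT); a common zero `ρ` would make `1 / (θ - ρ)` an algebraic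
integer with a norm less than one (GCT). By the theorem of Mason and Stothers the degrees of the terms (with the powers of
`T` removed) are at most the number of these zeros, and the gaps show that `θ` to this number is, up to a constant, at most
the norm of `x_1 ⋯ x_p` (LOT).

Packages UPT, LOT, ROT, GCT and CUT were proved by helper71.
-/

set_option autoImplicit false

namespace Pool.Agent.Results.MP_2a5a28_nt.GoldenDigits

open NumberField

/-- `x` is a sum of `k` terms `c u ^ a`, where `a ∈ ℤ` and `c` is an algebraic integer of `K` all of whose conjugates have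
absolute value at most `M` -/
def FewPowers {K : Type} [Field K] (u : (𝓞 K)ˣ) (k : ℕ) (M : ℝ) (x : 𝓞 K) : Prop :=
  ∃ (c : Fin k → 𝓞 K) (a : Fin k → ℤ), (∀ j (φ : K →+* ℂ), ‖φ (c j)‖ ≤ M) ∧
    x = ∑ j, c j * ((u ^ (a j) : (𝓞 K)ˣ) : 𝓞 K)

/-- the height `H(a, b, c)`: the product over the field embeddings `φ : K → ℂ` (two real ones when
`K = ℚ(√5)`) of `max (|φ a|, |φ b|, |φ c|)` -/
noncomputable def height {K : Type} [Field K] [NumberField K] (a b c : 𝓞 K) : ℝ :=
  ∏ φ : K →+* ℂ, max ‖φ a‖ (max ‖φ b‖ ‖φ c‖)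

/-- **The abc inequality with exponent one** over `K = ℚ(√5)` (`K` is quadratic and contains a unit `u` with
`u ^ 2 = u + 1`), with an explicit constant, for products of powers of integers with few digits to the base `u`. -/
theorem result (K : Type) [Field K] [NumberField K] (hK : Module.finrank ℚ K = 2) (u : (𝓞 K)ˣ)
    (hu : (u : 𝓞 K) ^ 2 = u + 1) (p k D : ℕ) (M : ℝ)
    -- the `x_i` have `k` digits, the `w_σ` one digit
    (x : Fin p → 𝓞 K) (hx : ∀ i, FewPowers u k M (x i)) (hx0 : ∀ i, x i ≠ 0)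
    (w : Fin 3 → 𝓞 K) (hw : ∀ σ, FewPowers u 1 M (w σ))
    -- the triple; `x_i` belongs to the member `τ i`
    (τ : Fin p → Fin 3) (e : Fin p → ℕ) (hD : ∀ σ, ∑ i with τ i = σ, e i < D)
    (A : Fin 3 → 𝓞 K) (hA : ∀ σ, A σ = w σ * ∏ i with τ i = σ, x i ^ e i) (hA0 : ∀ σ, A σ ≠ 0)
    (hsum : A 0 + A 1 + A 2 = 0) (hcop : Ideal.span {A 0, A 1, A 2} = (⊤ : Ideal (𝓞 K))) :
    height (A 0) (A 1) (A 2) ≤
      Real.exp ((192 * (D * (p * k + 3 : ℕ) * (1 + Real.log M))) ^ (2 * (p * k + 3) ^ 3)) *
        |(Algebra.norm ℤ (∏ i, x i) : ℝ)| := by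
  classical
  choose c a hc hxx using hx
  choose cw aw hcw hww using hw
  have hrange : Set.range A = {A 0, A 1, A 2} := by
    ext y
    constructor
    · rintro ⟨σ, rfl⟩
      fin_cases σ <;> simp
    · rintro (h | h | h)
      · exact ⟨0, h.symm⟩
      · exact ⟨1, h.symm⟩
      · exact ⟨2, (Set.mem_singleton_iff.1 h).symm⟩
  have h1 := Pool.Agent.P8H51.EA.finalT Pool.Agent.P8H51.EA.Bm.masn K 3 p k D M le_rfl u hu τ e hD
    c a hc x hxx hx0 (fun σ => cw σ 0) (fun σ => aw σ 0) (fun σ => hcw σ 0) w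
    (fun σ => by rw [hww σ, Fin.sum_univ_one]) A hA (by rw [Fin.sum_univ_three]; exact hsum)
    (by
      intro s hs1 hs2 h2
      have h3 : s.card ≤ 2 := by
        have h4 := Finset.card_lt_univ_of_notMem
          (Classical.choose_spec (not_forall.1 fun h => hs2 (Finset.eq_univ_iff_forall.2 h)))
        rw [Fintype.card_fin] at h4
        omega
      have h4 : ∑ σ ∈ sᶜ, A σ = 0 := by
        have h5 := Finset.sum_add_sum_compl s A
        rw [h2, zero_add, Fin.sum_univ_three, hsum] at h5
        exact h5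
      have h5 : s.card + sᶜ.card = 3 := by
        rw [Finset.card_add_card_compl, Fintype.card_fin]
      have h6 : 1 ≤ s.card := hs1.card_pos
      have h7 : s.card = 1 ∨ sᶜ.card = 1 := by omega
      rcases h7 with h7 | h7
      · obtain ⟨σ, hσ⟩ := Finset.card_eq_one.1 h7
        rw [hσ, Finset.sum_singleton] at h2
        exact hA0 σ h2
      · obtain ⟨σ, hσ⟩ := Finset.card_eq_one.1 h7
        rw [hσ, Finset.sum_singleton] at h4
        exact hA0 σ h4)
    (by rw [hrange]; exact hcop)
  have hx1 : (0 : ℝ) < |(Algebra.norm ℤ (∏ i, x i) : ℝ)| := by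
    rw [abs_pos]
    have h2 : Algebra.norm ℤ (∏ i, x i) ≠ 0 := by
      rw [Algebra.norm_ne_zero_iff]
      exact Finset.prod_ne_zero_iff.2 fun i _ => hx0 i
    exact_mod_cast h2
  have hpos : ∀ φ : K →+* ℂ, 0 < (⨆ σ, ‖Pool.Agent.P8H51.EA.em φ (A σ)‖) := by
    intro φ
    exact lt_of_lt_of_le (norm_pos_iff.2 fun h => hA0 0 (Pool.Agent.P8H51.EA.em_ne h))
      (le_ciSup (f := fun σ => ‖Pool.Agent.P8H51.EA.em φ (A σ)‖) (Set.finite_range _).bddAbove 0)
  have h2 : height (A 0) (A 1) (A 2) ≤
      ∏ φ : K →+* ℂ, (⨆ σ, ‖Pool.Agent.P8H51.EA.em φ (A σ)‖) := by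
    refine Finset.prod_le_prod (fun φ _ => le_max_of_le_left (norm_nonneg _)) fun φ _ => ?_
    have h3 : ∀ σ, ‖φ (A σ)‖ ≤ (⨆ σ, ‖Pool.Agent.P8H51.EA.em φ (A σ)‖) := fun σ =>
      le_ciSup (f := fun σ => ‖Pool.Agent.P8H51.EA.em φ (A σ)‖) (Set.finite_range _).bddAbove σ
    exact max_le (h3 0) (max_le (h3 1) (h3 2))
  refine h2.trans ?_
  rw [← Real.exp_log hx1, ← Real.exp_add,
    ← Real.log_le_iff_le_exp (Finset.prod_pos fun φ _ => hpos φ)]
  have h3 : ((3 - 1) * (3 - 2) / 2 * max 1 (3 - 3) : ℕ) = 1 := by decide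
  have h4 : (96 * ((D : ℝ) * ((2 : ℕ) : ℝ) * ((p * k + 3 : ℕ) : ℝ) * (1 + Real.log M))) =
      192 * (D * ((p * k + 3 : ℕ) : ℝ) * (1 + Real.log M)) := by
    push_cast
    ring
  rw [h3, hK, h4, Nat.cast_one, one_mul, add_comm] at h1
  exact h1

end Pool.Agent.Results.MP_2a5a28_nt.GoldenDigits
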