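import Mathlib
import Pool.Agent.P8H82.JG.Main

/-!
# Triples over `ℤ[(1 + √5) / 2]` ordered by their radical: asymptotic number and limit laws

ALL triples `a + b + c = 0`, `abc ≠ 0`, in lowest terms of integers of `K = ℚ(√5)`, of whatever
height, are ordered by their radical `rad` (up to units). We determine the asymptotic number
`κ X ^ (2 / 3)` of those with `rad ≤ X`, with an explicit Euler product for `κ`, the joint limit law
of the repeated part `(abc) / ∏_{P ∣ abc} P` and of the two real shapes `a / b`, and the limit law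
of `H / rad ^ (1 / 3)`. (The starting file `SharpCount` has the order of magnitude `X ^ (2 / 3)` with
unspecified constants, and tail bounds, which are used here; the starting file `JointLaw` of
`MP_7aad9f_nt` has the analogous asymptotics over `ℚ`.)

Proof. For a fixed repeated part `w` and a compact set of shapes the pairs `(a, b)` with `b` in a
fundamental cone for the units are the points of a lattice in `ℝ ^ 4` in a homothetically expanding
Jordan domain with local conditions at all primes; lattice points in cosets, a sieve, and the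
volume of the domain give the asymptotics. The tail bounds of `SharpCount` control large repeated
parts and extreme shapes.

Formalised by helper52, helper56, helper60, helper75, helper82 and helper86.
-/

set_option autoImplicit false

namespace Pool.Agent.Results.MP_2a5a28_nt.JointLawGolden

open NumberField IsDedekindDomain MeasureTheory Filter Topology

variable {K : Type} [Field K] [NumberField K]

/-- the triples in lowest terms with `a + b + c = 0` and `abc ≠ 0` -/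
structure Triple (t : 𝓞 K × 𝓞 K × 𝓞 K) : Prop where
  sum : t.1 + t.2.1 + t.2.2 = 0
  ne : t.1 * t.2.1 * t.2.2 ≠ 0
  cop : Ideal.span {t.1, t.2.1, t.2.2} = (⊤ : Ideal (𝓞 K))

/-- the height `H(a, b, c)`: the product over the field embeddings `φ : K → ℂ` (two real ones when
`K = ℚ(√5)`) of `max (|φ a|, |φ b|, |φ c|)` -/
noncomputable def height (t : 𝓞 K × 𝓞 K × 𝓞 K) : ℝ :=
  ∏ φ : K →+* ℂ, max ‖φ t.1‖ (max ‖φ t.2.1‖ ‖φ t.2.2‖)

/-- the radical: the product of the norms of the prime ideals dividing `abc` -/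
noncomputable def rad (t : 𝓞 K × 𝓞 K × 𝓞 K) : ℝ :=
  ∏ᶠ (P : HeightOneSpectrum (𝓞 K)) (_ : t.1 * t.2.1 * t.2.2 ∈ P.asIdeal),
    (Ideal.absNorm P.asIdeal : ℝ)

/-- the finite set `E` is a full set of representatives, up to units, of the triples with
`rad ≤ X`: it consists of such triples, no two members differ by a unit, and every such triple, of
whatever height, differs by a unit from a member -/
structure Reps (X : ℝ) (E : Finset (𝓞 K × 𝓞 K × 𝓞 K)) : Prop where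
  mem : ∀ t ∈ E, Triple t ∧ rad t ≤ X
  ineq : ∀ t ∈ E, ∀ s ∈ E, ∀ u : (𝓞 K)ˣ, s = (u * t.1, u * t.2.1, u * t.2.2) → s = t
  full : ∀ t, Triple t → rad t ≤ X → ∃ s ∈ E, ∃ u : (𝓞 K)ˣ,
    t = (u * s.1, u * s.2.1, u * s.2.2)

/-- the ideal `w` is the repeated part of the triple: `(abc) = w ∏_{P ∣ abc} P` -/
def IsRepeated (w : Ideal (𝓞 K)) (t : 𝓞 K × 𝓞 K × 𝓞 K) : Prop :=
  w * ∏ᶠ (P : HeightOneSpectrum (𝓞 K)) (_ : t.1 * t.2.1 * t.2.2 ∈ P.asIdeal), P.asIdeal =
    Ideal.span {t.1 * t.2.1 * t.2.2}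

/-- the two real shapes `a / b` of the triple, `σ` and `τ` being the two real embeddings -/
noncomputable def shapes (σ τ : K →+* ℝ) (t : 𝓞 K × 𝓞 K × 𝓞 K) : ℝ × ℝ :=
  (σ t.1 / σ t.2.1, τ t.1 / τ t.2.1)

/-- the norm of a prime ideal -/
noncomputable def nrm (P : HeightOneSpectrum (𝓞 K)) : ℝ := (Ideal.absNorm P.asIdeal : ℝ)

/-- the weight of the repeated part `w`; it is `0` for the zero ideal -/
noncomputable def weight (w : Ideal (𝓞 K)) : ℝ :=
  (Ideal.absNorm w : ℝ) ^ (-(1 : ℝ) / 3) *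
    ∏ᶠ (P : HeightOneSpectrum (𝓞 K)) (_ : w ≤ P.asIdeal),
      (3 * (nrm P - 1) / (nrm P ^ 2 + nrm P - 3))

/-- the density of a real shape -/
noncomputable def dens (x : ℝ) : ℝ := |x * (x + 1)| ^ (-(2 : ℝ) / 3)

/-- `max (|a|, |b|, |a + b|) ^ 3 / |a b (a + b)|` for `x = a / b` -/
noncomputable def hh (x : ℝ) : ℝ := max 1 (max |x| |x + 1|) ^ 3 / |x * (x + 1)|

/-- the weight of the triples with `H ≤ L rad ^ (1 / 3)`; the triples with repeated part `w` and
shapes `x` have `H ^ 3 = N(w) hh(x₁) hh(x₂) rad` -/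
noncomputable def distr (K : Type) [Field K] [NumberField K] (L : ℝ) : ℝ :=
  Real.log ((1 + √5) / 2) / 5 * ∑' w : Ideal (𝓞 K), weight w *
    ∫ x in {x : ℝ × ℝ | (Ideal.absNorm w : ℝ) * hh x.1 * hh x.2 ≤ L ^ 3}, dens x.1 * dens x.2

/-- **The distribution of all triples over `ℤ[(1 + √5) / 2]` ordered by radical.** Let `K = ℚ(√5)`.
There are `c₀, κ > 0`, given by `c₀ = ∏ (1 - 4/q² + 3/q³)` and
`κ = (9/5) log ((1 + √5)/2) (Γ(1/3)² / Γ(2/3))² ∏ (1 - 1/q) (1 + 1/q + 3 q^(-4/3) + 3 q^(-5/3))`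
(products over the prime ideals, `q` the norm), such that, for full sets `E(X)` of representatives,
up to units, of the triples with `rad ≤ X` (they exist for `X ≥ 1`):
(1) `#E(X)` is asymptotic to `κ X ^ (2/3)`;
(2) for all families of Jordan measurable (null boundary) sets `Q w` in the plane, `w` the ideals,
the number of `t ∈ E(X)` with repeated part `w` and shapes in `Q w` is asymptotic to
`(log ((1 + √5)/2) / 5) c₀ ∑ w, weight w ∫_{Q w} dens x₁ dens x₂ dx₁ dx₂ X ^ (2/3)` (so the repeated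
part and the two shapes are independent in the limit, and the weights are summable);
(3) for every `L` the number of `t ∈ E(X)` with `H ≤ L rad ^ (1/3)` is asymptotic to
`G(L) X ^ (2/3)`, `G(L) = c₀ distr L < κ`, and `G(L) → κ` for `L → ∞`. -/
theorem result : ∀ (K : Type) [Field K] [NumberField K], Module.finrank ℚ K = 2 →
    (∃ s : K, s ^ 2 = 5) →
    ∃ c₀ π₀ κ : ℝ, 0 < c₀ ∧ 0 < κ ∧
    HasProd (fun P : HeightOneSpectrum (𝓞 K) => 1 - 4 / nrm P ^ 2 + 3 / nrm P ^ 3) c₀ ∧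
    HasProd (fun P : HeightOneSpectrum (𝓞 K) => (1 - 1 / nrm P) * (1 + 1 / nrm P +
      3 * nrm P ^ (-(4 : ℝ) / 3) + 3 * nrm P ^ (-(5 : ℝ) / 3))) π₀ ∧
    κ = 9 / 5 * Real.log ((1 + √5) / 2) *
      (Real.Gamma (1 / 3) ^ 2 / Real.Gamma (2 / 3)) ^ 2 * π₀ ∧
    Summable (fun w : Ideal (𝓞 K) => weight w) ∧
    (∃ σ τ : K →+* ℝ, σ ≠ τ) ∧
    (∀ L : ℝ, c₀ * distr K L < κ) ∧ Tendsto (fun L : ℝ => c₀ * distr K L) atTop (𝓝 κ) ∧
    (∀ X : ℝ, 1 ≤ X → ∃ E : Finset (𝓞 K × 𝓞 K × 𝓞 K), Reps X E) ∧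
    ∀ E : ℝ → Finset (𝓞 K × 𝓞 K × 𝓞 K), (∀ X : ℝ, 1 ≤ X → Reps X (E X)) →
      Tendsto (fun X : ℝ => ((E X).card : ℝ) / X ^ ((2 : ℝ) / 3)) atTop (𝓝 κ) ∧
      (∀ σ τ : K →+* ℝ, σ ≠ τ → ∀ Q : Ideal (𝓞 K) → Set (ℝ × ℝ),
        (∀ w, MeasurableSet (Q w) ∧ volume (frontier (Q w)) = 0) →
        Tendsto (fun X : ℝ => ({t : 𝓞 K × 𝓞 K × 𝓞 K | t ∈ E X ∧
          ∃ w, IsRepeated w t ∧ shapes σ τ t ∈ Q w}.ncard : ℝ) / X ^ ((2 : ℝ) / 3)) atTop
          (𝓝 (Real.log ((1 + √5) / 2) / 5 * c₀ *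
            ∑' w, weight w * ∫ x in Q w, dens x.1 * dens x.2))) ∧
      ∀ L : ℝ, Tendsto (fun X : ℝ => ({t : 𝓞 K × 𝓞 K × 𝓞 K | t ∈ E X ∧
        height t ≤ L * rad t ^ ((1 : ℝ) / 3)}.ncard : ℝ) / X ^ ((2 : ℝ) / 3)) atTop
        (𝓝 (c₀ * distr K L)) := by
  intro K _ _ hK h5
  have hR : ∀ (X : ℝ) (E : Finset (𝓞 K × 𝓞 K × 𝓞 K)), Reps X E ↔ Pool.Agent.P8H82.JG.Reps X E := by
    intro X E
    constructor
    · intro h
      exact ⟨fun t ht => ⟨⟨(h.mem t ht).1.sum, (h.mem t ht).1.ne, (h.mem t ht).1.cop⟩,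
        (h.mem t ht).2⟩, h.ineq, fun t ht hr => h.full t ⟨ht.sum, ht.ne, ht.cop⟩ hr⟩
    · intro h
      exact ⟨fun t ht => ⟨⟨(h.mem t ht).1.sum, (h.mem t ht).1.ne, (h.mem t ht).1.cop⟩,
        (h.mem t ht).2⟩, h.ineq, fun t ht hr => h.full t ⟨ht.sum, ht.ne, ht.cop⟩ hr⟩
  obtain ⟨h1, h2, h3, h4, h5', h6, h7, h8, h9, h10⟩ :=
    Pool.Agent.P8H82.JG.main_thm (K := K) hK h5
  have hG : ∀ L : ℝ, Pool.Agent.P8H82.JG.c0 K * distr K L = Pool.Agent.P8H82.JG.GG K L := by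
    intro L
    unfold Pool.Agent.P8H82.JG.GG distr Pool.Agent.P8H82.JG.lam
    rw [← mul_assoc]
    congr 1
    ring
  refine ⟨Pool.Agent.P8H82.JG.c0 K, Pool.Agent.P8H82.JG.c0 K *
    ∑' w : Ideal (𝓞 K), Pool.Agent.P8H82.JG.rho w, Pool.Agent.P8H82.JG.kap K, h1, h2, h3, h4, rfl,
    h5', h6, fun L => ?_, ?_, fun X hX => ?_, fun E hE => ?_⟩
  · rw [hG]
    exact h7 L
  · simp only [hG]
    exact h8
  · obtain ⟨E, hE⟩ := h9 X hX
    exact ⟨E, (hR X E).2 hE⟩
  · obtain ⟨k1, k2, k3⟩ := h10 E (fun X hX => (hR X (E X)).1 (hE X hX))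
    refine ⟨k1, fun σ τ hne Q hQ => k2 σ τ hne Q hQ, fun L => ?_⟩
    rw [hG]
    exact k3 L

end Pool.Agent.Results.MP_2a5a28_nt.JointLawGolden
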