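import Mathlib
import Pool.Agent.P8H51.EB.Final
import Pool.Agent.P8H51.EA.Bmg
import Pool.Agent.P8H88.EA.Gctq
import Pool.Agent.P8H46.EB.Cut2
import Pool.Agent.P8H21.EB.Spr
import Pool.Agent.P8H84.EB.Lot2

/-!
# The abc inequality over `ℤ[(1 + √5) / 2]` with exponent one for few digits to an arbitrary non-unit base

Let `K = ℚ(√5)`, `O` its ring of integers, and `β ∈ O` any number which is neither `0` nor a unit, for instance a natural number
`g ≥ 2`, or `√5`, or `4 + √5`. Let `ν ≥ 1` be a natural number such that for some `t > 1` each of the two conjugates `β'` of `β`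
satisfies `t ≤ |β'| ≤ t ^ ν` or `|β'| ≤ 1 / t`; we show that every `β` has such a `ν` (and `ν = 1` if `|β|` and its conjugate are
equal, as for the natural numbers). Consider the triples `A_0 + A_1 + A_2 = 0` in lowest terms of nonzero integers of `K` of the form

  `A_σ = w_σ ∏_{i ∈ I_σ} x_i ^ (e_i)`, `σ = 0, 1, 2`,

where each of the `p` integers `x_i ≠ 0` of `K` is a sum of `k` terms `c β ^ a`, `a ≥ 0`, `c ∈ O` with `|c|, |c̄| ≤ M`, each `w_σ` is
one such term, and `∑_{i ∈ I_σ} e_i < D`. Then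

  `H (A_0, A_1, A_2) ≤ exp ((192 ν D r (1 + log M)) ^ (2 r ^ 3)) |N (x_1 ⋯ x_p)|`, `r = p k + 3`.

There are no exceptions and no restrictions on the exponents `a`; the bound depends on `β` only through `ν`.

Proof. As for unit bases (`GoldenDigits`), by a transfer to identities of polynomials, with these changes. We pass to `θ = β ^ h`, `h` small.
A vanishing sum of terms `c θ ^ a` splits at large gaps of the exponents: the high part is divisible by `θ ^ b`; at the places where
`|θ| ≥ t` the low part is small compared with `|θ| ^ b`, and at the other places the high part is at most a constant times `|θ| ^ b`; so the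
quotient of the low part by `θ ^ b` is an algebraic integer with a norm less than one (CUT2). The zeros different from `0` of the
polynomials with gaps are near the unit circle (ROT), while at each place `|θ|` is far from one, so that a common zero `ρ` would make
`1 / (θ - ρ)` an algebraic integer of norm less than one: the product of the `|θ|` over the places is at least one. The common power of
`θ` in the three terms is bounded since they are in lowest terms. Mason-Stothers bounds the degrees, and the gaps show that the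
norm of `x_i` is at least a constant times the Mahler measure of `θ` to the power of the degree (LOT2).

Packages UPT, ROT were proved by helper71, GCTQ by helper88, LOT2 by helper84 (after LOT of helper71), CUT2 by helper46 (after CUT of
helper71), and SPR (existence of `ν`) by helper21.
-/

set_option autoImplicit false

namespace Pool.Agent.Results.MP_2a5a28_nt.NonUnitBases

open NumberField

/-- `x` is a sum of `k` terms `c β ^ a`, where `a ∈ ℕ` and `c` is an algebraic integer of `K` all of whose conjugates have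
absolute value at most `M` -/
def FewDigits {K : Type} [Field K] (β : 𝓞 K) (k : ℕ) (M : ℝ) (x : 𝓞 K) : Prop :=
  ∃ (c : Fin k → 𝓞 K) (a : Fin k → ℕ), (∀ j (φ : K →+* ℂ), ‖φ (c j)‖ ≤ M) ∧
    x = ∑ j, c j * β ^ (a j)

/-- for some `t > 1` each conjugate `β'` of `β` satisfies `t ≤ |β'| ≤ t ^ ν` or `|β'| ≤ 1 / t` -/
def Ratio {K : Type} [Field K] (β : 𝓞 K) (ν : ℕ) : Prop :=
  ∃ t : ℝ, 1 < t ∧ ∀ φ : K →+* ℂ, (t ≤ ‖φ β‖ ∧ ‖φ β‖ ≤ t ^ ν) ∨ ‖φ β‖ ≤ t⁻¹

/-- the height `H(a, b, c)`: the product over the field embeddings `φ : K → ℂ` (two real ones when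
`K = ℚ(√5)`) of `max (|φ a|, |φ b|, |φ c|)` -/
noncomputable def height {K : Type} [Field K] [NumberField K] (a b c : 𝓞 K) : ℝ :=
  ∏ φ : K →+* ℂ, max ‖φ a‖ (max ‖φ b‖ ‖φ c‖)

/-- **The abc inequality with exponent one** over `K = ℚ(√5)` (`K` is quadratic and contains `u` with `u ^ 2 = u + 1`), with
an explicit constant, for products of powers of integers with few digits to the base `β`, any non-unit. -/
theorem result (K : Type) [Field K] [NumberField K] (hK : Module.finrank ℚ K = 2) (u : 𝓞 K)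
    (hu : u ^ 2 = u + 1) (β : 𝓞 K) (h0 : β ≠ 0) (hβ : ¬ IsUnit β) :
    (∃ ν : ℕ, 1 ≤ ν ∧ Ratio β ν) ∧
    ∀ ν : ℕ, 1 ≤ ν → Ratio β ν → ∀ (p k D : ℕ) (M : ℝ)
      -- the `x_i` have `k` digits, the `w_σ` one digit
      (x : Fin p → 𝓞 K) (_ : ∀ i, FewDigits β k M (x i)) (_ : ∀ i, x i ≠ 0)
      (w : Fin 3 → 𝓞 K) (_ : ∀ σ, FewDigits β 1 M (w σ))
      -- the triple; `x_i` belongs to the member `τ i`
      (τ : Fin p → Fin 3) (e : Fin p → ℕ) (_ : ∀ σ, ∑ i with τ i = σ, e i < D)
      (A : Fin 3 → 𝓞 K) (_ : ∀ σ, A σ = w σ * ∏ i with τ i = σ, x i ^ e i) (_ : ∀ σ, A σ ≠ 0)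
      (_ : A 0 + A 1 + A 2 = 0) (_ : Ideal.span {A 0, A 1, A 2} = (⊤ : Ideal (𝓞 K))),
      height (A 0) (A 1) (A 2) ≤
        Real.exp ((192 * (ν * D * (p * k + 3 : ℕ) * (1 + Real.log M))) ^ (2 * (p * k + 3) ^ 3)) *
          |(Algebra.norm ℤ (∏ i, x i) : ℝ)| := by
  classical
  refine ⟨?_, ?_⟩
  · obtain ⟨t, ν, ht, hν, h⟩ := Pool.Agent.P8H21.EB.Spr.spr K hK u hu β h0
      (fun h => hβ (h ▸ isUnit_one)) (fun h => hβ (h ▸ isUnit_one.neg))
    exact ⟨ν, hν, t, ht, h⟩
  intro ν hν ⟨t, ht, hr⟩ p k D M x hx hx0 w hw τ e hD A hA hA0 hsum hcop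
  choose c a hc hxx using hx
  choose cw aw hcw hww using hw
  have hrange : Set.range A = {A 0, A 1, A 2} := by
    ext y
    constructor
    · rintro ⟨σ, rfl⟩
      fin_cases σ <;> simp
    · rintro (h | h | h)
      · exact ⟨0, h.symm⟩
      · exact ⟨1, h.symm⟩
      · exact ⟨2, (Set.mem_singleton_iff.1 h).symm⟩
  have hD1 : 1 ≤ D := by
    have := hD 0
    omega
  have hM : 0 ≤ M := by
    obtain ⟨φ⟩ : Nonempty (K →+* ℂ) := inferInstance
    exact (norm_nonneg _).trans (hcw 0 0 φ)
  have hp : p ≤ D * (p * k + 3) := by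
    have h1 : p ≤ p * k + 3 := by
      rcases Nat.eq_zero_or_pos k with hk | hk
      · rcases Nat.eq_zero_or_pos p with hp | hp
        · omega
        · exfalso
          apply hx0 ⟨0, hp⟩
          rw [hxx]
          subst hk
          simp
      · have := Nat.le_mul_of_pos_right p hk
        omega
    exact h1.trans (Nat.le_mul_of_pos_left _ hD1)
  have h1 := Pool.Agent.P8H51.EB.final Pool.Agent.P8H84.EB.lot2 Pool.Agent.P8H46.EB.cut2
    Pool.Agent.P8H88.EA.gctq Pool.Agent.P8H51.EA.Bm.masn K 3 p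
    (p * k) D M le_rfl hp β t ν hν ht ⟨h0, hr⟩ 1 one_pos τ e hD
    (fun i j => if (finProdFinEquiv.symm j).1 = i then c i (finProdFinEquiv.symm j).2 else 0)
    (fun j => a (finProdFinEquiv.symm j).1 (finProdFinEquiv.symm j).2)
    (by
      intro i j φ
      split_ifs
      · exact hc _ _ φ
      · simpa using hM)
    x
    (by
      intro i
      rw [hxx i, ← Equiv.sum_comp finProdFinEquiv, Fintype.sum_prod_type]
      simp only [Equiv.symm_apply_apply, ite_mul, zero_mul]
      rw [Finset.sum_eq_single i]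
      · simp
      · intro s _ hs
        simp [hs]
      · simp)
    hx0 (fun σ => cw σ 0) (fun σ => aw σ 0) (fun σ => hcw σ 0) w
    (fun σ => by rw [hww σ, Fin.sum_univ_one]) A hA (by rw [Fin.sum_univ_three]; exact hsum)
    (by
      intro s hs1 hs2 h2
      have h3 : s.card ≤ 2 := by
        have h4 := Finset.card_lt_univ_of_notMem
          (Classical.choose_spec (not_forall.1 fun h => hs2 (Finset.eq_univ_iff_forall.2 h)))
        rw [Fintype.card_fin] at h4
        omega
      have h4 : ∑ σ ∈ sᶜ, A σ = 0 := by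
        have h5 := Finset.sum_add_sum_compl s A
        rw [h2, zero_add, Fin.sum_univ_three, hsum] at h5
        exact h5
      have h5 : s.card + sᶜ.card = 3 := by
        rw [Finset.card_add_card_compl, Fintype.card_fin]
      have h6 : 1 ≤ s.card := hs1.card_pos
      have h7 : s.card = 1 ∨ sᶜ.card = 1 := by omega
      rcases h7 with h7 | h7
      · obtain ⟨σ, hσ⟩ := Finset.card_eq_one.1 h7
        rw [hσ, Finset.sum_singleton] at h2
        exact hA0 σ h2
      · obtain ⟨σ, hσ⟩ := Finset.card_eq_one.1 h7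
        rw [hσ, Finset.sum_singleton] at h4
        exact hA0 σ h4)
    (by rw [hrange, hcop]; exact Submodule.mem_top)
  have hx1 : (0 : ℝ) < |(Algebra.norm ℤ (∏ i, x i) : ℝ)| := by
    rw [abs_pos]
    have h2 : Algebra.norm ℤ (∏ i, x i) ≠ 0 := by
      rw [Algebra.norm_ne_zero_iff]
      exact Finset.prod_ne_zero_iff.2 fun i _ => hx0 i
    exact_mod_cast h2
  have hpos : ∀ φ : K →+* ℂ, 0 < (⨆ σ, ‖Pool.Agent.P8H51.EA.em φ (A σ)‖) := by
    intro φ
    exact lt_of_lt_of_le (norm_pos_iff.2 fun h => hA0 0 (Pool.Agent.P8H51.EA.em_ne h))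
      (le_ciSup (f := fun σ => ‖Pool.Agent.P8H51.EA.em φ (A σ)‖) (Set.finite_range _).bddAbove 0)
  have h2 : height (A 0) (A 1) (A 2) ≤
      ∏ φ : K →+* ℂ, (⨆ σ, ‖Pool.Agent.P8H51.EA.em φ (A σ)‖) := by
    refine Finset.prod_le_prod (fun φ _ => le_max_of_le_left (norm_nonneg _)) fun φ _ => ?_
    have h3 : ∀ σ, ‖φ (A σ)‖ ≤ (⨆ σ, ‖Pool.Agent.P8H51.EA.em φ (A σ)‖) := fun σ =>
      le_ciSup (f := fun σ => ‖Pool.Agent.P8H51.EA.em φ (A σ)‖) (Set.finite_range _).bddAbove σ
    exact max_le (h3 0) (max_le (h3 1) (h3 2))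
  refine h2.trans ?_
  rw [← Real.exp_log hx1, ← Real.exp_add,
    ← Real.log_le_iff_le_exp (Finset.prod_pos fun φ _ => hpos φ)]
  have h3 : ((3 - 1) * (3 - 2) / 2 * max 1 (3 - 3) : ℕ) = 1 := by decide
  have h4 : (96 * ((D : ℝ) * ((2 : ℕ) : ℝ) * ((p * k + 3 : ℕ) : ℝ) *
      (ν * (1 + Real.log (((1 : ℕ) : ℝ) * M))))) =
      192 * (ν * D * ((p * k + 3 : ℕ) : ℝ) * (1 + Real.log M)) := by
    rw [Nat.cast_one, one_mul]
    push_cast
    ring
  rw [h3, hK, h4, Nat.cast_one, one_mul, add_comm] at h1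
  exact h1

end Pool.Agent.Results.MP_2a5a28_nt.NonUnitBases
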