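import Mathlib
import Pool.Agent.P8H9.SN.Abc
import Pool.Agent.P8H9.SN.Gold

/-!
# MP_2a5a28_nt: the abc inequality over `ℤ[(1 + √5) / 2]` for sparse triples

Let `K = ℚ(√5)` and let `Γ` be any finitely generated subgroup of `Kˣ`, for instance the group of
the units `± φ ^ k`, where `φ = (1 + √5) / 2`, or the group of all `S`-units for a finite set `S` of
primes. Call an element of `K` *sparse* if it is a sum of at most `l` elements of `Γ`. For all `l`,
`M` and `ε > 0` there is `C` with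

  `H(a, b, c) ≤ C |N(ρ)| ^ (1 + ε)`

for all triples `a + b + c = 0` in lowest terms of nonzero sparse integers `a, b, c` of `K` and all
nonzero sparse integers `ρ` such that `ρ ^ M = t a b c` with `t` sparse. There is no exceptional set.
If `t` is an integer then `ρ` is divisible by all primes dividing `abc`, so that `|N(ρ)|` is at
least the radical; for instance, if `(a, b, c) = (u x ^ p, v y ^ q, w z ^ r)` with `u, v, w ∈ Γ`,
fixed `p, q, r` and sparse `x, y, z`, then `H(a, b, c) ≤ C |N(x y z)| ^ (1 + ε)`.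

Authors: helper9, with helper69, helper78 and helper75 (algebra and heights of the engine).
-/

set_option autoImplicit false

namespace Pool.Agent.Results.MP_2a5a28_nt.SparseTriples

open NumberField

/-- `x` is a sum of at most `l` elements of the group `Γ` -/
def Sparse {K : Type} [Field K] (Γ : Subgroup Kˣ) (l : ℕ) (x : K) : Prop :=
  ∃ (s : Finset (Fin l)) (u : Fin l → Kˣ), (∀ j, u j ∈ Γ) ∧ x = ∑ j ∈ s, (u j : K)

variable {K : Type} [Field K] [NumberField K]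

/-- the triples in lowest terms with `a + b + c = 0` and `abc ≠ 0` -/
structure Triple (t : 𝓞 K × 𝓞 K × 𝓞 K) : Prop where
  sum : t.1 + t.2.1 + t.2.2 = 0
  ne : t.1 * t.2.1 * t.2.2 ≠ 0
  cop : Ideal.span {t.1, t.2.1, t.2.2} = (⊤ : Ideal (𝓞 K))

/-- the height `H(a, b, c)`: the product over the field embeddings `φ : K → ℂ` (two real ones when
`K = ℚ(√5)`) of `max (|φ a|, |φ b|, |φ c|)` -/
noncomputable def height (t : 𝓞 K × 𝓞 K × 𝓞 K) : ℝ :=
  ∏ φ : K →+* ℂ, max ‖φ t.1‖ (max ‖φ t.2.1‖ ‖φ t.2.2‖)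

theorem result (K : Type) [Field K] [NumberField K] (_hK : Module.finrank ℚ K = 2)
    (_h5 : ∃ s : K, s ^ 2 = 5) (Γ : Subgroup Kˣ) (hΓ : Γ.FG) (l M : ℕ) (ε : ℝ) (hε : 0 < ε) :
    ∃ C : ℝ, 0 < C ∧ ∀ x : 𝓞 K × 𝓞 K × 𝓞 K, Triple x → Sparse Γ l (x.1 : K) →
      Sparse Γ l (x.2.1 : K) → Sparse Γ l (x.2.2 : K) → ∀ ρ : 𝓞 K, ρ ≠ 0 → Sparse Γ l (ρ : K) →
      (∃ t : K, Sparse Γ l t ∧ (ρ : K) ^ M = t * ((x.1 : K) * x.2.1 * x.2.2)) →
      height x ≤ C * |((Algebra.norm ℤ ρ : ℤ) : ℝ)| ^ (1 + ε) := by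
  obtain ⟨C, hC0, hC⟩ := Pool.Agent.P8H9.SN.abcInt K Γ hΓ l M ε hε
  exact ⟨C, hC0, fun x hx h1 h2 h3 ρ hρ hρs ⟨t, ht, hrel⟩ =>
    hC x.1 x.2.1 x.2.2 hx.sum hx.ne hx.cop h1 h2 h3 ρ hρ hρs t ht hrel⟩

end Pool.Agent.Results.MP_2a5a28_nt.SparseTriples
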